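import Pool.Agent.TG.Gron
import Pool.Agent.TC.Rel
import Pool.Agent.TO.Cor

/-!
# The growth of the relative energy
-/

set_option autoImplicit false

namespace Pool.Agent.TG

open MeasureTheory Set Filter Topology Pool.Agent.TO Pool.Agent.TB Pool.Agent.TC
open scoped ENNReal NNReal Real InnerProductSpace

variable {T : ℝ} {u₀ v₀ : V3} {u v : ℝ → V3} {a : ℝ → ℝ} {Du Dv : ℝ → Fin 3 → V3}

theorem growth (P : Rel T u₀ v₀ u v a Du Dv) {s t : ℝ} (hs : 0 ≤ s) (hst : s ≤ t)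
    (ht : t < T) (ha : IntegrableOn (fun τ => a τ ^ 2) (Ioo s t) volume) :
    RE v₀ u v Dv t ≤ RE v₀ u v Dv s * Real.exp (1 / 2 * ∫ τ in Ioo s t, a τ ^ 2) := by
  have hsubT : Ioo s t ⊆ Ioo 0 T := Ioo_subset_Ioo hs ht.le
  have key := gronwall (f := RE v₀ u v Dv) (g := fun τ => 2 * re0 (u τ) (v τ) (Du τ) (Dv τ))
    (k := fun τ => 1 / 2 * a τ ^ 2) hst
    (by
      rw [intervalIntegrable_iff_integrableOn_Ioo_of_le hst]
      exact (P.RE_formula hs hst ht ha).1.const_mul 2)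
    (by
      rw [intervalIntegrable_iff_integrableOn_Ioo_of_le hst]
      exact ha.const_mul _)
    (fun τ => by positivity)
    (by
      intro x hx
      have h1 := (P.RE_formula hs hx.1 (hx.2.trans_lt ht)
        (ha.mono_set (Ioo_subset_Ioo_right hx.2))).2
      rw [intervalIntegral.integral_of_le hx.1, integral_Ioc_eq_integral_Ioo, integral_const_mul]
      linarith)
    (by
      filter_upwards [ae_restrict_of_ae_restrict_of_subset hsubT P.hua,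
        ae_restrict_mem measurableSet_Ioo] with τ h1 h2
      have h3 := re0_le (v := v τ) (du := Du τ) (dv := Dv τ) (P.ha0 τ) h1
      set S := ∑ k, ‖Dv τ k - Du τ k‖ ^ 2 with hS
      have hS0 : 0 ≤ S := Finset.sum_nonneg fun k _ => by positivity
      have h4 : S = √S ^ 2 := (Real.sq_sqrt hS0).symm
      have h5 := P.le_RE (t := τ) ⟨hs.trans h2.1.le, h2.2.trans ht⟩
      have h6 : 1 / 2 * a τ ^ 2 * ‖v τ - u τ‖ ^ 2 ≤ 1 / 2 * a τ ^ 2 * RE v₀ u v Dv τ :=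
        mul_le_mul_of_nonneg_left h5 (by positivity)
      refine le_trans ?_ h6
      nlinarith [sq_nonneg (2 * √S - a τ * ‖v τ - u τ‖)])
  rw [intervalIntegral.integral_of_le hst, integral_Ioc_eq_integral_Ioo, integral_const_mul] at key
  exact key

/-- the relative energy at time `0` -/
theorem RE_zero (P : Rel T u₀ v₀ u v a Du Dv) : RE v₀ u v Dv 0 = ‖v₀ - u₀‖ ^ 2 := by
  unfold RE
  rw [P.hu.init, P.hv.init, Ioo_self, setIntegral_empty]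
  ring

/-- **A criterion for uniqueness.** -/
theorem crit (hu : IsLeray T u₀ u) (hv : IsLeray T u₀ v) (ha0 : ∀ τ, 0 ≤ a τ)
    (hua : BddBy T u a) {t : ℝ} (ht : t ∈ Ioo 0 T)
    (h : ∀ η > 0, ∃ s ∈ Ioo 0 t, ∃ S > s, ∃ (φ : V3) (w : ℝ → V3) (b : ℝ → ℝ), IsLeray S φ w ∧
      (∀ τ, 0 ≤ b τ) ∧ BddBy S w b ∧ IntegrableOn (fun τ => b τ ^ 2) (Ioo 0 s) volume ∧
      IntegrableOn (fun τ => a τ ^ 2) (Ioo s t) volume ∧
      ‖u₀ - φ‖ ^ 2 * Real.exp (1 / 2 * ∫ τ in Ioo 0 s, b τ ^ 2) *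
        Real.exp (1 / 2 * ∫ τ in Ioo s t, a τ ^ 2) ≤ η) : u t = v t := by
  obtain ⟨Du, h1, h2, h3⟩ := exists_grad_en hu
  obtain ⟨Dv, h4, h5, h6⟩ := exists_grad_en hv
  have P : Rel T u₀ u₀ u v a Du Dv := ⟨hu, hv, ha0, hua, h1, h4, h2, h5, h6⟩
  have key : ∀ η > 0, ‖v t - u t‖ ^ 2 ≤ 4 * η := by
    intro η hη
    obtain ⟨s, hs, S, hS, φ, w, b, hw, hb0, hwb, hb, ha, hle⟩ := h η hη
    have hS0 : 0 < S := hs.1.trans hS
    obtain ⟨Dw, k1, k2, k3⟩ := exists_grad_en hw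
    set T' := min S T with hT'
    have hT'S : T' ≤ S := min_le_left _ _
    have hT'T : T' ≤ T := min_le_right _ _
    have hsT' : s < T' := lt_min hS (hs.2.trans ht.2)
    have hsub1 : Ioo 0 T' ⊆ Ioo 0 S := Ioo_subset_Ioo_right hT'S
    have hsub2 : Ioo 0 T' ⊆ Ioo 0 T := Ioo_subset_Ioo_right hT'T
    have Pv : Rel T' φ u₀ w v b Dw Dv :=
      ⟨hw.mono hT'S, hv.mono hT'T, hb0, hwb.mono hT'S,
        ae_restrict_of_ae_restrict_of_subset hsub1 k1,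
        ae_restrict_of_ae_restrict_of_subset hsub2 h4,
        fun τ hτ => k2 τ ⟨hτ.1, hτ.2.trans_le hT'S⟩,
        fun τ hτ => h5 τ ⟨hτ.1, hτ.2.trans_le hT'T⟩,
        fun τ hτ => h6 τ ⟨hτ.1, hτ.2.trans_le hT'T⟩⟩
    have Pu : Rel T' φ u₀ w u b Dw Du :=
      ⟨hw.mono hT'S, hu.mono hT'T, hb0, hwb.mono hT'S,
        ae_restrict_of_ae_restrict_of_subset hsub1 k1,
        ae_restrict_of_ae_restrict_of_subset hsub2 h1,
        fun τ hτ => k2 τ ⟨hτ.1, hτ.2.trans_le hT'S⟩,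
        fun τ hτ => h2 τ ⟨hτ.1, hτ.2.trans_le hT'T⟩,
        fun τ hτ => h3 τ ⟨hτ.1, hτ.2.trans_le hT'T⟩⟩
    have g1 := growth Pv le_rfl hs.1.le hsT' hb
    have g2 := growth Pu le_rfl hs.1.le hsT' hb
    rw [RE_zero Pv] at g1
    rw [RE_zero Pu] at g2
    have g3 := Pv.le_RE (t := s) ⟨hs.1.le, hsT'⟩
    have g4 := Pu.le_RE (t := s) ⟨hs.1.le, hsT'⟩
    have g5 := growth P hs.1.le hs.2.le ht.2 ha
    have g6 := P.le_RE (t := t) ⟨ht.1.le, ht.2⟩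
    set E := ‖u₀ - φ‖ ^ 2 * Real.exp (1 / 2 * ∫ τ in Ioo 0 s, b τ ^ 2) with hE
    have g7 : RE u₀ u v Dv s = RE u₀ w v Dv s - ‖v s - w s‖ ^ 2 + ‖v s - u s‖ ^ 2 := by
      unfold RE
      ring
    have g8 : ‖v s - u s‖ ^ 2 ≤ 2 * ‖v s - w s‖ ^ 2 + 2 * ‖u s - w s‖ ^ 2 := by
      have e1 : v s - u s = (v s - w s) - (u s - w s) := by abel
      have e2 : ‖v s - u s‖ ≤ ‖v s - w s‖ + ‖u s - w s‖ := by
        rw [e1]
        exact norm_sub_le _ _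
      have e3 := pow_le_pow_left₀ (norm_nonneg _) e2 2
      nlinarith [sq_nonneg (‖v s - w s‖ - ‖u s - w s‖)]
    have g9 : RE u₀ u v Dv s ≤ 4 * E := by linarith
    have hexp : 0 ≤ Real.exp (1 / 2 * ∫ τ in Ioo s t, a τ ^ 2) := (Real.exp_pos _).le
    calc ‖v t - u t‖ ^ 2 ≤ RE u₀ u v Dv t := g6
      _ ≤ RE u₀ u v Dv s * Real.exp (1 / 2 * ∫ τ in Ioo s t, a τ ^ 2) := g5
      _ ≤ 4 * E * Real.exp (1 / 2 * ∫ τ in Ioo s t, a τ ^ 2) :=
          mul_le_mul_of_nonneg_right g9 hexp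
      _ = 4 * (E * Real.exp (1 / 2 * ∫ τ in Ioo s t, a τ ^ 2)) := by ring
      _ ≤ 4 * η := mul_le_mul_of_nonneg_left hle (by norm_num)
  have h0 : ‖v t - u t‖ ^ 2 ≤ 0 := by
    apply le_of_forall_pos_le_add
    intro η hη
    have := key (η / 4) (by positivity)
    linarith
  have h7 : ‖v t - u t‖ ^ 2 = 0 := le_antisymm h0 (sq_nonneg _)
  have h8 : ‖v t - u t‖ = 0 := by simpa using h7
  exact (sub_eq_zero.1 (norm_eq_zero.1 h8)).symm

end Pool.Agent.TG
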