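import Mathlib

/-!
# The Gronwall inequality with an integrable kernel
-/

set_option autoImplicit false

namespace Pool.Agent.TG

open MeasureTheory Set Filter Topology
open scoped Real

/-- composition with a contraction -/
theorem ac_of_dist_le {K g : ℝ → ℝ} {a b : ℝ} (hK : AbsolutelyContinuousOnInterval K a b)
    (h : ∀ x ∈ uIcc a b, ∀ y ∈ uIcc a b, dist (g x) (g y) ≤ dist (K x) (K y)) :
    AbsolutelyContinuousOnInterval g a b := by
  rw [absolutelyContinuousOnInterval_iff] at hK ⊢
  intro ε hε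
  obtain ⟨δ, hδ, h1⟩ := hK ε hε
  refine ⟨δ, hδ, fun E hE hE2 => lt_of_le_of_lt ?_ (h1 E hE hE2)⟩
  apply Finset.sum_le_sum
  intro i hi
  have h2 := hE.1 i hi
  exact h _ h2.1 _ h2.2

theorem exp_neg_lip {x y : ℝ} (hx : 0 ≤ x) (hy : 0 ≤ y) :
    dist (Real.exp (-x)) (Real.exp (-y)) ≤ dist x y := by
  wlog hxy : x ≤ y generalizing x y
  · rw [dist_comm, dist_comm x]
    exact this hy hx (le_of_not_ge hxy)
  rw [Real.dist_eq, Real.dist_eq, abs_of_nonneg (by
    rw [sub_nonneg]
    exact Real.exp_le_exp.2 (by linarith)), abs_of_nonpos (by linarith)]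
  have h1 : Real.exp (-y) = Real.exp (-x) * Real.exp (-(y - x)) := by
    rw [← Real.exp_add]
    ring_nf
  have h2 : 1 - (y - x) ≤ Real.exp (-(y - x)) := by
    have := Real.add_one_le_exp (-(y - x))
    linarith
  have h3 : Real.exp (-x) ≤ 1 := Real.exp_le_one_iff.2 (by linarith)
  have h4 : 0 < Real.exp (-x) := Real.exp_pos _
  rw [h1]
  nlinarith

/-- **The Gronwall inequality** with an integrable kernel. -/
theorem gronwall {f g k : ℝ → ℝ} {s t : ℝ} (hst : s ≤ t) (hg : IntervalIntegrable g volume s t)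
    (hk : IntervalIntegrable k volume s t) (hk0 : ∀ τ, 0 ≤ k τ)
    (hf : ∀ x ∈ Icc s t, f x = f s + ∫ τ in s..x, g τ)
    (h : ∀ᵐ τ ∂(volume.restrict (Ioo s t)), g τ ≤ k τ * f τ) :
    f t ≤ f s * Real.exp (∫ τ in s..t, k τ) := by
  set K : ℝ → ℝ := fun x => ∫ τ in s..x, k τ with hK
  set F : ℝ → ℝ := fun x => ∫ τ in s..x, g τ with hF
  have hs : s ∈ uIcc s t := left_mem_uIcc
  have acK : AbsolutelyContinuousOnInterval K s t :=
    hk.absolutelyContinuousOnInterval_intervalIntegral hs
  have acF : AbsolutelyContinuousOnInterval F s t :=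
    hg.absolutelyContinuousOnInterval_intervalIntegral hs
  have hK0 : ∀ x ∈ uIcc s t, 0 ≤ K x := by
    intro x hx
    rw [uIcc_of_le hst] at hx
    exact intervalIntegral.integral_nonneg hx.1 fun τ _ => hk0 τ
  have acE : AbsolutelyContinuousOnInterval (fun x => Real.exp (-K x)) s t :=
    ac_of_dist_le acK fun x hx y hy => exp_neg_lip (hK0 x hx) (hK0 y hy)
  have acG : AbsolutelyContinuousOnInterval (fun x => f s + F x) s t :=
    ac_of_dist_le acF fun x _ y _ => by simp
  have key := acE.integral_deriv_mul_eq_sub acG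
  have e1 : ∫ x in s..t, (deriv (fun x => Real.exp (-K x)) x * (f s + F x) +
      Real.exp (-K x) * deriv (fun x => f s + F x) x) ≤ 0 := by
    have hae : ∀ᵐ x ∂(volume.restrict (Ioo s t)),
        deriv (fun x => Real.exp (-K x)) x * (f s + F x) +
      Real.exp (-K x) * deriv (fun x => f s + F x) x ≤ 0 := by
      filter_upwards [h, ae_restrict_mem measurableSet_Ioo,
        ae_restrict_of_ae hk.ae_hasDerivAt_integral,
        ae_restrict_of_ae hg.ae_hasDerivAt_integral] with x h1 h2 h3 h4
      have hx : x ∈ uIcc s t := by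
        rw [uIcc_of_le hst]
        exact Ioo_subset_Icc_self h2
      have d1 : HasDerivAt K (k x) x := h3 hx s hs
      have d2 : HasDerivAt F (g x) x := h4 hx s hs
      have d3 : HasDerivAt (fun x => Real.exp (-K x)) (Real.exp (-K x) * -k x) x := d1.neg.exp
      have d4 : HasDerivAt (fun x => f s + F x) (g x) x := d2.const_add _
      rw [d3.deriv, d4.deriv]
      have h5 : f x = f s + F x := hf x (Ioo_subset_Icc_self h2)
      rw [← h5]
      have h6 : 0 < Real.exp (-K x) := Real.exp_pos _
      nlinarith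
    rw [intervalIntegral.integral_of_le hst, integral_Ioc_eq_integral_Ioo]
    exact integral_nonpos_of_ae hae
  rw [key] at e1
  have h1 : f t = f s + F t := hf t (right_mem_Icc.2 hst)
  have h2 : K s = 0 := by simp [hK]
  have h3 : F s = 0 := by simp [hF]
  rw [← h1, h2, h3, neg_zero, Real.exp_zero, one_mul, add_zero] at e1
  have h4 : f t = Real.exp (-K t) * f t * Real.exp (K t) := by
    rw [mul_right_comm, ← Real.exp_add, neg_add_cancel, Real.exp_zero, one_mul]
  have h5 : 0 < Real.exp (K t) := Real.exp_pos _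
  rw [h4]
  change _ ≤ f s * Real.exp (K t)
  apply mul_le_mul_of_nonneg_right _ h5.le
  linarith

end Pool.Agent.TG
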