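import Pool.Agent.TG.Main

/-!
# Uniqueness of weak Leray solutions for generic data

`Approx κ` is the set of the data `u₀ ∈ L²` which, for arbitrarily small `S > 0`, are closer in `L²`
than `S ^ (κ / 2) exp (-M / 4)` to some initial value `φ` of a weak Leray solution on `[0, S)` whose
norm in `L²(0, S; L^∞)` is at most `√M`. It is a `G_δ` set in `L²` and contains each initial value
of a weak Leray solution in `L²(0, S; L^∞)`, `S > 0`. If `u₀ ∈ Approx κ`, then a weak Leray solution
`u` with `|u(t)| ≤ ε / √t`, `ε² < 2 κ`, is the only one.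
-/

set_option autoImplicit false

namespace Pool.Agent.Results.MP_d762fe_an.GenericData

open MeasureTheory Set Pool.Agent.TO Pool.Agent.TG

theorem result (κ : ℝ) : IsGδ (Approx κ) ∧ (∀ S M φ, 0 < S → RegData S M φ → φ ∈ Approx κ) ∧
    ∀ u₀ ∈ Approx κ, ∀ (T : ℝ) (u v : ℝ → V3), Leray T u₀ u → Leray T u₀ v →
      ∀ ε : ℝ, ε ^ 2 < 2 * κ → LBdd T u (fun t => ε / √t) → ∀ t ∈ Ico 0 T, u t = v t :=
  ⟨isGδ_approx κ, fun _ _ _ hS h => mem_approx hS h,
    fun _ h0 _ _ _ hu hv _ hε hub => approx_unique h0 hu hv hε hub⟩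

end Pool.Agent.Results.MP_d762fe_an.GenericData
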