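import Pool.Agent.TO.Stmt

/-!
# The definitions of the statement: approximable data
-/

set_option autoImplicit false

namespace Pool.Agent.TG

open MeasureTheory Set Pool.Agent.TO

/-- `‖f - g‖₂²` -/
noncomputable def sqDist (f g : V3) : ℝ := ‖f - g‖ ^ 2

/-- `φ` is the initial value of a weak Leray solution `w` on `[0, S)` with `|w(t)| ≤ b(t)` and
`∫₀^S b² ≤ M` -/
def RegData (S M : ℝ) (φ : V3) : Prop :=
  ∃ (w : ℝ → V3) (b : ℝ → ℝ), Leray S φ w ∧ LBdd S w b ∧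
    IntegrableOn (fun t => b t ^ 2) (Ioo 0 S) volume ∧ ∫ t in Ioo 0 S, b t ^ 2 ≤ M

/-- the data `u₀` such that `‖u₀ - φ‖₂² exp(M / 2) < S ^ κ` for some `φ` with `RegData S M φ`, for
arbitrarily small `S > 0` -/
def Approx (κ : ℝ) : Set V3 :=
  {u₀ | ∀ δ > 0, ∃ S ∈ Ioo 0 δ, ∃ M φ, RegData S M φ ∧ sqDist u₀ φ * Real.exp (M / 2) < S ^ κ}

end Pool.Agent.TG
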