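import Pool.Agent.TG.Grow
import Pool.Agent.TG.Stmt

/-!
# Uniqueness for approximable data
-/

set_option autoImplicit false

namespace Pool.Agent.TG

open MeasureTheory Set Filter Topology Pool.Agent.TO Pool.Agent.TC
open scoped ENNReal NNReal Real InnerProductSpace

theorem Leray.mono {T : ℝ} {u₀ : V3} {u : ℝ → V3} (h : Leray T u₀ u) {T' : ℝ} (hT : T' ≤ T) :
    Leray T' u₀ u where
  init := h.init
  meas := h.meas.mono_measure (Measure.restrict_mono (Ioo_subset_Ioo_right hT) le_rfl)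
  wcont g := (h.wcont g).mono (Ico_subset_Ico_right hT)
  div t ht := h.div t ⟨ht.1, ht.2.trans_le hT⟩
  eqn t ht := h.eqn t ⟨ht.1, ht.2.trans_le hT⟩
  energy := by
    obtain ⟨D, h1, h2⟩ := h.energy
    exact ⟨D, ae_restrict_of_ae_restrict_of_subset (Ioo_subset_Ioo_right hT) h1,
      fun t ht => h2 t ⟨ht.1, ht.2.trans_le hT⟩⟩

theorem RegData.mono {S M : ℝ} {φ : V3} (h : RegData S M φ) {S' : ℝ} (hS : S' ≤ S) :
    RegData S' M φ := by
  obtain ⟨w, b, h1, h2, h3, h4⟩ := h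
  have hsub : Ioo 0 S' ⊆ Ioo 0 S := Ioo_subset_Ioo_right hS
  refine ⟨w, b, Leray.mono h1 hS, ae_restrict_of_ae_restrict_of_subset hsub h2, h3.mono_set hsub,
    le_trans ?_ h4⟩
  exact setIntegral_mono_set h3 (Eventually.of_forall fun t => sq_nonneg _)
    (Eventually.of_forall hsub)

theorem isGδ_approx (κ : ℝ) : IsGδ (Approx κ) := by
  have h1 : Approx κ = ⋂ n : ℕ, {u₀ | ∃ S ∈ Ioo (0:ℝ) (1 / ((n:ℝ) + 1)), ∃ M φ, RegData S M φ ∧
      sqDist u₀ φ * Real.exp (M / 2) < S ^ κ} := by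
    ext u₀
    simp only [Approx, mem_setOf_eq, mem_iInter]
    constructor
    · intro h n
      exact h _ (by positivity)
    · intro h δ hδ
      obtain ⟨n, hn⟩ := exists_nat_one_div_lt hδ
      obtain ⟨S, hS, h2⟩ := h n
      exact ⟨S, ⟨hS.1, hS.2.trans hn⟩, h2⟩
  rw [h1]
  refine IsGδ.iInter_of_isOpen fun n => ?_
  have h2 : {u₀ | ∃ S ∈ Ioo (0:ℝ) (1 / ((n:ℝ) + 1)), ∃ M φ, RegData S M φ ∧
      sqDist u₀ φ * Real.exp (M / 2) < S ^ κ} = ⋃ S ∈ Ioo (0:ℝ) (1 / ((n:ℝ) + 1)), ⋃ M : ℝ,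
      ⋃ φ : V3, ⋃ _ : RegData S M φ, {u₀ | sqDist u₀ φ * Real.exp (M / 2) < S ^ κ} := by
    ext u₀
    simp only [mem_setOf_eq, mem_iUnion, exists_prop]
  rw [h2]
  refine isOpen_iUnion fun S => isOpen_iUnion fun _ => isOpen_iUnion fun M => isOpen_iUnion fun φ =>
    isOpen_iUnion fun _ => ?_
  apply isOpen_lt _ continuous_const
  unfold sqDist
  fun_prop

theorem mem_approx {S M κ : ℝ} {φ : V3} (hS : 0 < S) (h : RegData S M φ) : φ ∈ Approx κ := by
  intro δ hδ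
  refine ⟨min S (δ / 2), ⟨lt_min hS (by positivity), (min_le_right _ _).trans_lt (by linarith)⟩,
    M, φ, h.mono (min_le_left _ _), ?_⟩
  unfold sqDist
  rw [sub_self, norm_zero]
  have : 0 < min S (δ / 2) := lt_min hS (by positivity)
  have := Real.rpow_pos_of_pos this κ
  simpa using this

theorem integral_sq_inv {s t c : ℝ} (hs : 0 < s) (hst : s ≤ t) :
    IntegrableOn (fun τ => (c / √τ) ^ 2) (Ioo s t) volume ∧
    ∫ τ in Ioo s t, (c / √τ) ^ 2 = c ^ 2 * Real.log (t / s) := by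
  constructor
  · rw [← intervalIntegrable_iff_integrableOn_Ioo_of_le hst]
    have := integrable_sq_inv_sqrt (t := t) hs c
    rwa [max_eq_right hst] at this
  · have e1 : ∫ τ in Ioo s t, (c / √τ) ^ 2 = ∫ τ in Ioo s t, c ^ 2 * τ⁻¹ := by
      apply setIntegral_congr_fun measurableSet_Ioo
      intro τ hτ
      beta_reduce
      rw [div_pow, Real.sq_sqrt (hs.trans hτ.1).le, div_eq_mul_inv]
    rw [e1, integral_const_mul, ← integral_Ioc_eq_integral_Ioo,
      ← intervalIntegral.integral_of_le hst, integral_inv_of_pos hs (hs.trans_le hst)]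

/-- **Uniqueness for approximable data.** -/
theorem approx_unique {κ : ℝ} {u₀ : V3} (h0 : u₀ ∈ Approx κ) {T : ℝ}
    {u v : ℝ → V3} (hu : Leray T u₀ u) (hv : Leray T u₀ v) {ε : ℝ} (hε : ε ^ 2 < 2 * κ)
    (hub : LBdd T u (fun t => ε / √t)) : ∀ t ∈ Ico 0 T, u t = v t := by
  intro t ht
  rcases eq_or_lt_of_le ht.1 with h | ht0
  · rw [← h, hu.init, hv.init]
  have hT : 0 < T := ht0.trans ht.2
  have hub' : BddBy T u (fun t => |ε| / √t) := by
    have h1 : BddBy T u (fun t => ε / √t) := hub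
    apply h1.mono_fun
    intro t ht
    gcongr
    exact le_abs_self ε
  refine crit (a := fun t => |ε| / √t) hu.isLeray hv.isLeray (fun t => by positivity) hub'
    ⟨ht0, ht.2⟩ fun η hη => ?_
  have hκ : 0 < κ - ε ^ 2 / 2 := by linarith
  have lim : Tendsto (fun S : ℝ => (2 * t) ^ (ε ^ 2 / 2) * S ^ (κ - ε ^ 2 / 2)) (𝓝[>] 0)
      (𝓝 ((2 * t) ^ (ε ^ 2 / 2) * 0)) := by
    apply Tendsto.const_mul
    have := (Real.continuousAt_rpow_const 0 (κ - ε ^ 2 / 2) (Or.inr hκ.le)).tendsto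
    rw [Real.zero_rpow hκ.ne'] at this
    exact this.mono_left nhdsWithin_le_nhds
  rw [mul_zero] at lim
  have hev := lim.eventually (gt_mem_nhds hη)
  rw [eventually_nhdsWithin_iff, Metric.eventually_nhds_iff] at hev
  obtain ⟨δ, hδ, hev⟩ := hev
  obtain ⟨S, hS, M, φ, ⟨w, b, h1, h2, h3, h4⟩, h5⟩ := h0 (min δ t) (lt_min hδ ht0)
  have hSδ : S < δ := hS.2.trans_le (min_le_left _ _)
  have hSt : S < t := hS.2.trans_le (min_le_right _ _)
  have h6 := hev (y := S) (by rwa [Real.dist_eq, sub_zero, abs_of_pos hS.1]) hS.1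
  have hs : 0 < S / 2 := by linarith [hS.1]
  have hst : S / 2 ≤ t := by linarith
  obtain ⟨i1, i2⟩ := integral_sq_inv (c := |ε|) hs hst
  have hsub : Ioo 0 (S / 2) ⊆ Ioo 0 S := Ioo_subset_Ioo_right (by linarith [hS.1])
  refine ⟨S / 2, ⟨hs, by linarith⟩, S, by linarith, φ, w, fun t => |b t|, h1.isLeray,
    fun t => abs_nonneg _, ?_, ?_, i1, ?_⟩
  · have h7 : BddBy S w b := h2
    exact h7.mono_fun fun t _ => le_abs_self _
  · simpa only [sq_abs] using h3.mono_set hsub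
  · rw [i2]
    simp only [sq_abs]
    have e1 : Real.exp (1 / 2 * (ε ^ 2 * Real.log (t / (S / 2)))) =
        (2 * t) ^ (ε ^ 2 / 2) * S ^ (-(ε ^ 2 / 2)) := by
      have e2 : t / (S / 2) = 2 * t / S := by field_simp
      rw [e2, Real.rpow_neg hS.1.le, ← div_eq_mul_inv, ← Real.div_rpow (by positivity) hS.1.le,
        Real.rpow_def_of_pos (div_pos (by positivity) hS.1)]
      congr 1
      ring
    have e3 : ∫ τ in Ioo 0 (S / 2), b τ ^ 2 ≤ M :=
      (setIntegral_mono_set h3 (Eventually.of_forall fun t => sq_nonneg _)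
        (Eventually.of_forall hsub)).trans h4
    have e4 : Real.exp (1 / 2 * ∫ τ in Ioo 0 (S / 2), b τ ^ 2) ≤ Real.exp (M / 2) := by
      apply Real.exp_le_exp.2
      linarith
    have e5 : ‖u₀ - φ‖ ^ 2 * Real.exp (1 / 2 * ∫ τ in Ioo 0 (S / 2), b τ ^ 2) ≤ S ^ κ := by
      have := mul_le_mul_of_nonneg_left e4 (sq_nonneg ‖u₀ - φ‖)
      exact this.trans h5.le
    have e6 : 0 ≤ (2 * t) ^ (ε ^ 2 / 2) * S ^ (-(ε ^ 2 / 2)) := by
      have := hS.1
      positivity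
    calc ‖u₀ - φ‖ ^ 2 * Real.exp (1 / 2 * ∫ τ in Ioo 0 (S / 2), b τ ^ 2) *
          Real.exp (1 / 2 * (ε ^ 2 * Real.log (t / (S / 2)))) ≤
          S ^ κ * ((2 * t) ^ (ε ^ 2 / 2) * S ^ (-(ε ^ 2 / 2))) := by
            rw [e1]
            exact mul_le_mul_of_nonneg_right e5 e6
      _ = (2 * t) ^ (ε ^ 2 / 2) * S ^ (κ - ε ^ 2 / 2) := by
          rw [sub_eq_add_neg, Real.rpow_add hS.1]
          ring
      _ ≤ η := h6.le

end Pool.Agent.TG
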